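import Mathlib

/-!
Homeomorphisms of the plane which rescale a short spur at a corner and are the identity away from
it.
-/

set_option autoImplicit false

namespace Pool.Agent.Y93.Spur

open Set

noncomputable section

/-! ### the line -/

/-- the piecewise linear map of `[0, ρ]` with `0 ↦ 0`, `c ↦ d`, `ρ ↦ ρ` -/
def g (ρ c d t : ℝ) : ℝ := min t c * (d / c) + max (t - c) 0 * ((ρ - d) / (ρ - c))

variable {ρ c d t m : ℝ}

theorem g_of_le (h : t ≤ c) : g ρ c d t = t * (d / c) := by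
  unfold g
  rw [min_eq_left h, max_eq_right (by linarith)]
  ring

theorem g_of_ge (hc : 0 < c) (h : c ≤ t) : g ρ c d t = d + (t - c) * ((ρ - d) / (ρ - c)) := by
  unfold g
  rw [min_eq_right h, max_eq_left (by linarith), mul_div_cancel₀ _ hc.ne']

theorem g_zero (hc : 0 < c) : g ρ c d 0 = 0 := by
  rw [g_of_le hc.le, zero_mul]

theorem g_end (hc : 0 < c) (hcρ : c < ρ) : g ρ c d ρ = ρ := by
  rw [g_of_ge hc hcρ.le, mul_div_cancel₀ _ (by linarith : ρ - c ≠ 0)]
  ring

theorem g_le_iff (hc : 0 < c) (hcρ : c < ρ) (hd : 0 < d) (hdρ : d < ρ) (h0 : 0 ≤ t) (h1 : t ≤ ρ) :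
    0 ≤ g ρ c d t ∧ g ρ c d t ≤ ρ ∧ (t ≤ c → g ρ c d t ≤ d) ∧ (c ≤ t → d ≤ g ρ c d t) := by
  have hρc : 0 < ρ - c := by linarith
  have hρd : 0 < ρ - d := by linarith
  rcases le_total t c with h | h
  · have h2 : t * (d / c) ≤ d := by
      rw [mul_div_assoc', div_le_iff₀ hc]
      nlinarith
    have h3 : 0 ≤ t * (d / c) := by positivity
    rw [g_of_le h]
    refine ⟨h3, by linarith, fun _ => h2, fun h4 => ?_⟩
    have : t = c := le_antisymm h h4
    rw [this, mul_div_cancel₀ _ hc.ne']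
  · rw [g_of_ge hc h]
    have h2 : 0 ≤ (t - c) * ((ρ - d) / (ρ - c)) := by
      have : 0 ≤ t - c := by linarith
      positivity
    have h3 : (t - c) * ((ρ - d) / (ρ - c)) ≤ ρ - d := by
      rw [mul_div_assoc', div_le_iff₀ hρc]
      nlinarith
    refine ⟨by linarith, by linarith, fun h4 => ?_, fun _ => by linarith⟩
    have : t = c := le_antisymm h4 h
    rw [this, sub_self, zero_mul, add_zero]

theorem g_g (hc : 0 < c) (hcρ : c < ρ) (hd : 0 < d) (hdρ : d < ρ) (h0 : 0 ≤ t) (h1 : t ≤ ρ) :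
    g ρ d c (g ρ c d t) = t := by
  have hρc : ρ - c ≠ 0 := by linarith
  have hρd : ρ - d ≠ 0 := by linarith
  obtain ⟨-, -, h2, h3⟩ := g_le_iff hc hcρ hd hdρ h0 h1
  rcases le_total t c with h | h
  · rw [g_of_le (h2 h), g_of_le h]
    field_simp
  · rw [g_of_ge hd (h3 h), g_of_ge hc h]
    field_simp
    ring

/-- the extension to the line, turned around -/
def F (ρ c d m : ℝ) : ℝ :=
  m - max (-ρ) (min m 0) - g ρ c d (-(max (-ρ) (min m 0)))

theorem F_pos (hρ : 0 < ρ) (hc : 0 < c) (h : 0 ≤ m) : F ρ c d m = m := by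
  unfold F
  rw [min_eq_right h, max_eq_right (by linarith), neg_zero, g_zero hc]
  ring

theorem F_neg (hc : 0 < c) (hcρ : c < ρ) (h : m ≤ -ρ) : F ρ c d m = m := by
  unfold F
  rw [min_eq_left (by linarith), max_eq_left h, neg_neg, g_end hc hcρ]
  ring

theorem F_mid (h0 : -ρ ≤ m) (h1 : m ≤ 0) : F ρ c d m = - g ρ c d (-m) := by
  unfold F
  rw [min_eq_left h1, max_eq_right h0]
  ring

theorem F_F (hc : 0 < c) (hcρ : c < ρ) (hd : 0 < d) (hdρ : d < ρ) :
    F ρ d c (F ρ c d m) = m := by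
  have hρ : 0 < ρ := by linarith
  rcases le_total 0 m with h | h
  · rw [F_pos hρ hc h, F_pos hρ hd h]
  rcases le_total m (-ρ) with h' | h'
  · rw [F_neg hc hcρ h', F_neg hd hdρ h']
  · rw [F_mid h' h]
    obtain ⟨h2, h3, -, -⟩ := g_le_iff hc hcρ hd hdρ (t := -m) (by linarith) (by linarith)
    rw [F_mid (by linarith) (by linarith), neg_neg, g_g hc hcρ hd hdρ (by linarith) (by linarith),
      neg_neg]

theorem F_same (hc : 0 < c) (hcρ : c < ρ) : F ρ c c m = m := by
  have hρ : 0 < ρ := by linarith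
  rcases le_total 0 m with h | h
  · rw [F_pos hρ hc h]
  rcases le_total m (-ρ) with h' | h'
  · rw [F_neg hc hcρ h']
  · rw [F_mid h' h]
    rcases le_total (-m) c with h2 | h2
    · rw [g_of_le h2, div_self hc.ne']; ring
    · rw [g_of_ge hc h2, div_self (by linarith : ρ - c ≠ 0)]; ring

/-! ### the plane in the coordinates `(s, m)` -/

/-- the level of the break point over `s` -/
def lev (ρ e s : ℝ) : ℝ := (1 - min (|s| / ρ) 1) * e + min (|s| / ρ) 1 * (ρ / 2)

theorem lev_zero (e : ℝ) : lev ρ e 0 = e := by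
  unfold lev; simp

theorem lev_mem {e : ℝ} (he : 0 < e) (heρ : e < ρ) (s : ℝ) : 0 < lev ρ e s ∧ lev ρ e s < ρ := by
  have hρ : 0 < ρ := by linarith
  have h0 : 0 ≤ min (|s| / ρ) 1 := le_min (by positivity) zero_le_one
  have h1 : min (|s| / ρ) 1 ≤ 1 := min_le_right _ _
  unfold lev
  generalize min (|s| / ρ) 1 = x at *
  constructor
  · rcases eq_or_lt_of_le h0 with h | h
    · rw [← h]; simpa using he
    · have : 0 < x * (ρ / 2) := by positivity
      have : 0 ≤ (1 - x) * e := mul_nonneg (by linarith) he.le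
      linarith
  · rcases eq_or_lt_of_le h0 with h | h
    · rw [← h]; simpa using heρ
    · have h3 : x * (ρ / 2) < x * ρ := by nlinarith
      have h4 : (1 - x) * e ≤ (1 - x) * ρ := mul_le_mul_of_nonneg_left heρ.le (by linarith)
      nlinarith

theorem lev_far {e : ℝ} (hρ : 0 < ρ) {s : ℝ} (hs : ρ ≤ |s|) : lev ρ e s = ρ / 2 := by
  unfold lev
  rw [min_eq_right (by rwa [le_div_iff₀ hρ, one_mul])]
  ring

theorem lev_cont (e : ℝ) : Continuous (lev ρ e) := by
  unfold lev
  fun_prop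

theorem F_cont {c d : ℝ × ℝ → ℝ} (hc : Continuous c) (hd : Continuous d)
    (h0 : ∀ p, c p ≠ 0) (h1 : ∀ p, ρ - c p ≠ 0) : Continuous fun p : ℝ × ℝ => F ρ (c p) (d p) p.2 := by
  unfold F g
  have h2 : Continuous fun p : ℝ × ℝ => d p / c p := hd.div hc h0
  have h3 : Continuous fun p : ℝ × ℝ => (ρ - d p) / (ρ - c p) :=
    (continuous_const.sub hd).div (continuous_const.sub hc) h1
  fun_prop

/-- the local homeomorphism in the coordinates `(s, m)` -/
def loc (ρ e₁ e₂ : ℝ) (h1 : 0 < e₁) (h1' : e₁ < ρ) (h2 : 0 < e₂) (h2' : e₂ < ρ) :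
    ℝ × ℝ ≃ₜ ℝ × ℝ where
  toFun p := (p.1, F ρ (lev ρ e₁ p.1) (lev ρ e₂ p.1) p.2)
  invFun p := (p.1, F ρ (lev ρ e₂ p.1) (lev ρ e₁ p.1) p.2)
  left_inv p := by
    obtain ⟨a, b⟩ := lev_mem h1 h1' p.1
    obtain ⟨a', b'⟩ := lev_mem h2 h2' p.1
    exact Prod.ext rfl (F_F a b a' b')
  right_inv p := by
    obtain ⟨a, b⟩ := lev_mem h1 h1' p.1
    obtain ⟨a', b'⟩ := lev_mem h2 h2' p.1
    exact Prod.ext rfl (F_F a' b' a b)
  continuous_toFun := by
    refine continuous_fst.prodMk (F_cont ((lev_cont _).comp continuous_fst)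
      ((lev_cont _).comp continuous_fst) (fun p => ?_) (fun p => ?_))
    · exact (lev_mem h1 h1' p.1).1.ne'
    · have := (lev_mem h1 h1' p.1).2
      show ρ - lev ρ e₁ p.1 ≠ 0
      linarith
  continuous_invFun := by
    refine continuous_fst.prodMk (F_cont ((lev_cont _).comp continuous_fst)
      ((lev_cont _).comp continuous_fst) (fun p => ?_) (fun p => ?_))
    · exact (lev_mem h2 h2' p.1).1.ne'
    · have := (lev_mem h2 h2' p.1).2
      show ρ - lev ρ e₂ p.1 ≠ 0
      linarith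

/-! ### the coordinates -/

/-- the plane -/
abbrev Pl : Type := ℝ × ℝ

/-- the determinant -/
def det (u w : Pl) : ℝ := u.1 * w.2 - u.2 * w.1

def ca (v u w p : Pl) : ℝ := ((p.1 - v.1) * w.2 - (p.2 - v.2) * w.1) / det u w
def cb (v u w p : Pl) : ℝ := (u.1 * (p.2 - v.2) - u.2 * (p.1 - v.1)) / det u w
def back (v u w : Pl) (a b : ℝ) : Pl := v + a • u + b • w

variable {v u w : Pl}

theorem back_c (h : det u w ≠ 0) (p : Pl) : back v u w (ca v u w p) (cb v u w p) = p := by
  unfold back ca cb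
  apply Prod.ext
  · simp only [Prod.fst_add, Prod.smul_fst, smul_eq_mul]
    field_simp
    unfold det
    ring
  · simp only [Prod.snd_add, Prod.smul_snd, smul_eq_mul]
    field_simp
    unfold det
    ring

theorem ca_back (h : det u w ≠ 0) (a b : ℝ) : ca v u w (back v u w a b) = a := by
  unfold back ca
  simp only [Prod.fst_add, Prod.smul_fst, smul_eq_mul, Prod.snd_add, Prod.smul_snd]
  rw [div_eq_iff h]
  unfold det
  ring

theorem cb_back (h : det u w ≠ 0) (a b : ℝ) : cb v u w (back v u w a b) = b := by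
  unfold back cb
  simp only [Prod.fst_add, Prod.smul_fst, smul_eq_mul, Prod.snd_add, Prod.smul_snd]
  rw [div_eq_iff h]
  unfold det
  ring

/-- the coordinates `(s, m)` at a corner -/
def psi (v u w : Pl) (h : det u w ≠ 0) : Pl ≃ₜ ℝ × ℝ where
  toFun p := (ca v u w p - cb v u w p, min (ca v u w p) (cb v u w p))
  invFun q := back v u w (q.2 + max q.1 0) (q.2 + max (-q.1) 0)
  left_inv p := by
    show back v u w (min (ca v u w p) (cb v u w p) + max (ca v u w p - cb v u w p) 0)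
      (min (ca v u w p) (cb v u w p) + max (-(ca v u w p - cb v u w p)) 0) = p
    have e1 : ∀ a b : ℝ, min a b + max (a - b) 0 = a := by
      intro a b
      rcases le_total a b with h | h
      · rw [min_eq_left h, max_eq_right (by linarith)]; ring
      · rw [min_eq_right h, max_eq_left (by linarith)]; ring
    have e2 : ∀ a b : ℝ, min a b + max (-(a - b)) 0 = b := by
      intro a b
      rcases le_total a b with h | h
      · rw [min_eq_left h, max_eq_left (by linarith)]; ring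
      · rw [min_eq_right h, max_eq_right (by linarith)]; ring
    rw [e1, e2, back_c h]
  right_inv q := by
    obtain ⟨s, m⟩ := q
    show (ca v u w (back v u w (m + max s 0) (m + max (-s) 0)) -
      cb v u w (back v u w (m + max s 0) (m + max (-s) 0)),
      min (ca v u w (back v u w (m + max s 0) (m + max (-s) 0)))
        (cb v u w (back v u w (m + max s 0) (m + max (-s) 0)))) = (s, m)
    rw [ca_back h, cb_back h]
    rcases le_total 0 s with hs | hs
    · rw [max_eq_left hs, max_eq_right (by linarith), add_zero, min_eq_right (by linarith)]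
      apply Prod.ext
      · show m + s - m = s
        ring
      · rfl
    · rw [max_eq_right hs, max_eq_left (by linarith), add_zero, min_eq_left (by linarith)]
      apply Prod.ext
      · show m - (m + -s) = s
        ring
      · rfl
  continuous_toFun := by
    unfold ca cb
    fun_prop
  continuous_invFun := by
    unfold back
    fun_prop

/-- the homeomorphism of the plane -/
def hom (v u w : Pl) (h : det u w ≠ 0) (ρ e₁ e₂ : ℝ) (h1 : 0 < e₁) (h1' : e₁ < ρ) (h2 : 0 < e₂)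
    (h2' : e₂ < ρ) : Pl ≃ₜ Pl :=
  ((psi v u w h).trans (loc ρ e₁ e₂ h1 h1' h2 h2')).trans (psi v u w h).symm

/-- the support -/
def T (v u w : Pl) (ρ : ℝ) : Set Pl :=
  {p | |ca v u w p - cb v u w p| < ρ ∧ -ρ < min (ca v u w p) (cb v u w p) ∧
    min (ca v u w p) (cb v u w p) < 0}

theorem hom_fix (h : det u w ≠ 0) {ρ e₁ e₂ : ℝ} (h1 : 0 < e₁) (h1' : e₁ < ρ) (h2 : 0 < e₂)
    (h2' : e₂ < ρ) {p : Pl} (hp : p ∉ T v u w ρ) :
    hom v u w h ρ e₁ e₂ h1 h1' h2 h2' p = p := by
  have key : loc ρ e₁ e₂ h1 h1' h2 h2' (psi v u w h p) = psi v u w h p := by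
    refine Prod.ext rfl ?_
    show F ρ (lev ρ e₁ (ca v u w p - cb v u w p)) (lev ρ e₂ (ca v u w p - cb v u w p))
      (min (ca v u w p) (cb v u w p)) = min (ca v u w p) (cb v u w p)
    obtain ⟨a, b⟩ := lev_mem h1 h1' (ca v u w p - cb v u w p)
    by_cases hs : |ca v u w p - cb v u w p| < ρ
    · by_cases hm : -ρ < min (ca v u w p) (cb v u w p)
      · have h3 : 0 ≤ min (ca v u w p) (cb v u w p) := by
          by_contra hcon
          exact hp ⟨hs, hm, not_le.1 hcon⟩
        exact F_pos (h1.trans h1') a h3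
      · exact F_neg a b (not_lt.1 hm)
    · have hρ := h1.trans h1'
      rw [lev_far hρ (not_lt.1 hs), lev_far hρ (not_lt.1 hs)]
      exact F_same (by linarith) (by linarith)
  show (psi v u w h).symm (loc ρ e₁ e₂ h1 h1' h2 h2' (psi v u w h p)) = p
  rw [key, Homeomorph.symm_apply_apply]

theorem psi_spur (h : det u w ≠ 0) {t : ℝ} :
    psi v u w h (v - t • (u + w)) = (0, -t) := by
  have e : v - t • (u + w) = back v u w (-t) (-t) := by
    unfold back
    rw [smul_add, neg_smul, neg_smul]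
    abel
  show (ca v u w (v - t • (u + w)) - cb v u w (v - t • (u + w)),
    min (ca v u w (v - t • (u + w))) (cb v u w (v - t • (u + w)))) = (0, -t)
  rw [e, ca_back h, cb_back h]
  simp

theorem hom_spur (h : det u w ≠ 0) {ρ e₁ e₂ : ℝ} (h1 : 0 < e₁) (h1' : e₁ < ρ) (h2 : 0 < e₂)
    (h2' : e₂ < ρ) {t : ℝ} (ht : 0 ≤ t) (ht' : t ≤ e₁) :
    hom v u w h ρ e₁ e₂ h1 h1' h2 h2' (v - t • (u + w)) = v - (t * (e₂ / e₁)) • (u + w) := by
  show (psi v u w h).symm (loc ρ e₁ e₂ h1 h1' h2 h2' (psi v u w h (v - t • (u + w)))) = _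
  rw [Homeomorph.symm_apply_eq, psi_spur, psi_spur]
  refine Prod.ext rfl ?_
  show F ρ (lev ρ e₁ 0) (lev ρ e₂ 0) (-t) = -(t * (e₂ / e₁))
  rw [lev_zero, lev_zero, F_mid (by linarith) (by linarith), neg_neg, g_of_le ht']

/-- the spur -/
def spur (v u w : Pl) (e : ℝ) : Set Pl := segment ℝ v (v - e • (u + w))

theorem mem_spur {e : ℝ} (he : 0 ≤ e) {p : Pl} :
    p ∈ spur v u w e ↔ ∃ t, 0 ≤ t ∧ t ≤ e ∧ p = v - t • (u + w) := by
  unfold spur
  rw [segment_eq_image']
  constructor
  · rintro ⟨θ, ⟨h0, h1⟩, rfl⟩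
    refine ⟨θ * e, by positivity, by nlinarith, ?_⟩
    simp only
    rw [show v - e • (u + w) - v = -(e • (u + w)) by abel, smul_neg, smul_smul]
    abel
  · rintro ⟨t, h0, h1, rfl⟩
    rcases eq_or_lt_of_le he with h | h
    · have : t = 0 := by linarith
      subst this
      refine ⟨0, ⟨le_rfl, zero_le_one⟩, ?_⟩
      simp
    · refine ⟨t / e, ⟨by positivity, (div_le_one h).2 h1⟩, ?_⟩
      simp only
      rw [show v - e • (u + w) - v = -(e • (u + w)) by abel, smul_neg, smul_smul,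
        div_mul_cancel₀ _ h.ne']
      abel

theorem hom_image (h : det u w ≠ 0) {ρ e₁ e₂ : ℝ} (h1 : 0 < e₁) (h1' : e₁ < ρ) (h2 : 0 < e₂)
    (h2' : e₂ < ρ) :
    hom v u w h ρ e₁ e₂ h1 h1' h2 h2' '' spur v u w e₁ = spur v u w e₂ := by
  ext p
  rw [mem_spur h2.le]
  constructor
  · rintro ⟨q, hq, rfl⟩
    obtain ⟨t, h3, h4, rfl⟩ := (mem_spur h1.le).1 hq
    refine ⟨t * (e₂ / e₁), by positivity, ?_, hom_spur h h1 h1' h2 h2' h3 h4⟩
    rw [mul_div_assoc', div_le_iff₀ h1]
    nlinarith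
  · rintro ⟨t, h3, h4, rfl⟩
    have h5 : t * (e₁ / e₂) ≤ e₁ := by
      rw [mul_div_assoc', div_le_iff₀ h2]
      nlinarith
    refine ⟨v - (t * (e₁ / e₂)) • (u + w), (mem_spur h1.le).2 ⟨_, by positivity, h5, rfl⟩, ?_⟩
    rw [hom_spur h h1 h1' h2 h2' (by positivity) h5]
    congr 2
    field_simp

theorem spur_sub (h : det u w ≠ 0) {ρ e : ℝ} (h1 : 0 ≤ e) (h1' : e < ρ) :
    spur v u w e ⊆ insert v (T v u w ρ) := by
  intro p hp
  obtain ⟨t, h3, h4, rfl⟩ := (mem_spur h1).1 hp
  rcases eq_or_lt_of_le h3 with h5 | h5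
  · left
    rw [← h5]
    simp
  · right
    have e : v - t • (u + w) = back v u w (-t) (-t) := by
      unfold back
      rw [smul_add, neg_smul, neg_smul]
      abel
    rw [e]
    unfold T
    rw [Set.mem_ofPred_eq, ca_back h, cb_back h]
    simp only [sub_self, abs_zero, min_self]
    exact ⟨by linarith, by linarith, by linarith⟩

/-- the support is near the corner -/
theorem T_ball (h : det u w ≠ 0) {ρ : ℝ} {p : Pl} (hp : p ∈ T v u w ρ) :
    dist p v ≤ ρ * (‖u‖ + ‖w‖) := by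
  obtain ⟨h1, h2, h3⟩ := hp
  rw [abs_lt] at h1
  have e := back_c (v := v) h p
  have ha : |ca v u w p| ≤ ρ := by
    rw [abs_le]
    rcases le_total (ca v u w p) (cb v u w p) with h | h
    · rw [min_eq_left h] at h2 h3
      constructor <;> linarith
    · rw [min_eq_right h] at h2 h3
      constructor <;> linarith
  have hb : |cb v u w p| ≤ ρ := by
    rw [abs_le]
    rcases le_total (ca v u w p) (cb v u w p) with h | h
    · rw [min_eq_left h] at h2 h3
      constructor <;> linarith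
    · rw [min_eq_right h] at h2 h3
      constructor <;> linarith
  have e2 : p - v = ca v u w p • u + cb v u w p • w := by
    nth_rewrite 1 [← e]
    unfold back
    abel
  rw [dist_eq_norm, e2]
  calc ‖ca v u w p • u + cb v u w p • w‖ ≤ ‖ca v u w p • u‖ + ‖cb v u w p • w‖ := norm_add_le _ _
    _ = |ca v u w p| * ‖u‖ + |cb v u w p| * ‖w‖ := by rw [norm_smul, norm_smul]; rfl
    _ ≤ ρ * ‖u‖ + ρ * ‖w‖ := by gcongr
    _ = ρ * (‖u‖ + ‖w‖) := by ring

theorem not_T_left (h : det u w ≠ 0) {ρ t : ℝ} (ht : 0 ≤ t) : v + t • u ∉ T v u w ρ := by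
  intro hp
  have e : v + t • u = back v u w t 0 := by
    unfold back
    rw [zero_smul, add_zero]
  rw [e] at hp
  obtain ⟨-, -, h3⟩ := hp
  rw [ca_back h, cb_back h, min_eq_right ht] at h3
  exact lt_irrefl _ h3

theorem not_T_right (h : det u w ≠ 0) {ρ t : ℝ} (ht : 0 ≤ t) : v + t • w ∉ T v u w ρ := by
  intro hp
  have e : v + t • w = back v u w 0 t := by
    unfold back
    rw [zero_smul, add_zero]
  rw [e] at hp
  obtain ⟨-, -, h3⟩ := hp
  rw [ca_back h, cb_back h, min_eq_left ht] at h3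
  exact lt_irrefl _ h3

end

end Pool.Agent.Y93.Spur
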