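import Mathlib
import Pool.Agent.Y93.Spur

/-!
Rescaling all spurs of a figure one after the other.
-/

set_option autoImplicit false

namespace Pool.Agent.Y93.Spur

open Set

noncomputable section

variable {ι : Type} [Fintype ι] [DecidableEq ι] (K N₀ : Set Pl) (v u w : ι → Pl)

/-- the figure with spurs of sizes `ε i` -/
def MM (ε : ι → ℝ) : Set Pl := K ∪ ⋃ i, spur (v i) (u i) (w i) (ε i)

/-- the nodes -/
def NN (ε : ι → ℝ) : Set Pl := N₀ ∪ range fun i => v i - ε i • (u i + w i)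

variable {K N₀ v u w} {ρ : ℝ}

theorem step (h : ∀ i, det (u i) (w i) ≠ 0) (hK : ∀ i, Disjoint K (T (v i) (u i) (w i) ρ))
    (hN : N₀ ⊆ K) (hv : ∀ i, v i ∈ K)
    (hT : ∀ i j, i ≠ j → Disjoint (T (v i) (u i) (w i) ρ) (T (v j) (u j) (w j) ρ))
    (ε : ι → ℝ) (hε : ∀ i, 0 < ε i ∧ ε i < ρ) (i : ι) (e : ℝ) (he : 0 < e) (he' : e < ρ) :
    ∃ g : Pl ≃ₜ Pl, g '' MM K v u w ε = MM K v u w (Function.update ε i e) ∧
      g '' NN N₀ v u w ε = NN N₀ v u w (Function.update ε i e) := by
  set g := hom (v i) (u i) (w i) (h i) ρ (ε i) e (hε i).1 (hε i).2 he he' with hg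
  have fixK : ∀ p ∈ K, g p = p := fun p hp =>
    hom_fix (h i) _ _ _ _ (Set.disjoint_left.1 (hK i) hp)
  have fixS : ∀ j, j ≠ i → ∀ p ∈ spur (v j) (u j) (w j) (ε j), g p = p := by
    intro j hj p hp
    rcases spur_sub (h j) (hε j).1.le (hε j).2 hp with rfl | hp'
    · exact fixK _ (hv j)
    · exact hom_fix (h i) _ _ _ _ (Set.disjoint_left.1 (hT j i hj) hp')
  have imS : ∀ j, g '' spur (v j) (u j) (w j) (ε j) =
      spur (v j) (u j) (w j) (Function.update ε i e j) := by
    intro j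
    by_cases hj : j = i
    · subst hj
      rw [Function.update_self]
      exact hom_image (h j) _ _ _ _
    · rw [Function.update_of_ne hj]
      have : EqOn g id (spur (v j) (u j) (w j) (ε j)) := fixS j hj
      rw [this.image_eq, image_id]
  refine ⟨g, ?_, ?_⟩
  · unfold MM
    have h1 : EqOn g id K := fixK
    rw [image_union, image_iUnion, h1.image_eq, image_id]
    congr 1
    exact iUnion_congr imS
  · unfold NN
    have h1 : EqOn g id N₀ := fun p hp => fixK p (hN hp)
    rw [image_union, h1.image_eq, image_id, ← range_comp]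
    congr 2
    funext j
    show g (v j - ε j • (u j + w j)) = v j - Function.update ε i e j • (u j + w j)
    by_cases hj : j = i
    · subst hj
      rw [Function.update_self]
      have := hom_spur (v := v j) (h j) (hε j).1 (hε j).2 he he' (hε j).1.le le_rfl
      rw [hg, this, mul_div_cancel₀ _ (hε j).1.ne']
    · rw [Function.update_of_ne hj]
      exact fixS j hj _ ((mem_spur (hε j).1.le).2 ⟨ε j, (hε j).1.le, le_rfl, rfl⟩)

theorem rescale (h : ∀ i, det (u i) (w i) ≠ 0) (hK : ∀ i, Disjoint K (T (v i) (u i) (w i) ρ))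
    (hN : N₀ ⊆ K) (hv : ∀ i, v i ∈ K)
    (hT : ∀ i j, i ≠ j → Disjoint (T (v i) (u i) (w i) ρ) (T (v j) (u j) (w j) ρ))
    (ε ε' : ι → ℝ) (hε : ∀ i, 0 < ε i ∧ ε i < ρ) (hε' : ∀ i, 0 < ε' i ∧ ε' i < ρ) :
    ∃ g : Pl ≃ₜ Pl, g '' MM K v u w ε = MM K v u w ε' ∧
      g '' NN N₀ v u w ε = NN N₀ v u w ε' := by
  have key : ∀ s : Finset ι, ∃ g : Pl ≃ₜ Pl,
      g '' MM K v u w ε = MM K v u w (s.piecewise ε' ε) ∧
      g '' NN N₀ v u w ε = NN N₀ v u w (s.piecewise ε' ε) := by
    intro s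
    induction s using Finset.induction_on with
    | empty =>
      refine ⟨Homeomorph.refl _, ?_, ?_⟩
      · rw [Finset.piecewise_empty]; simp
      · rw [Finset.piecewise_empty]; simp
    | insert i s his ih =>
      obtain ⟨g, h1, h2⟩ := ih
      obtain ⟨g', h3, h4⟩ := step h hK hN hv hT (s.piecewise ε' ε)
        (fun j => by
          by_cases hj : j ∈ s
          · rw [Finset.piecewise_eq_of_mem _ _ _ hj]; exact hε' j
          · rw [Finset.piecewise_eq_of_notMem _ _ _ hj]; exact hε j) i (ε' i) (hε' i).1 (hε' i).2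
      refine ⟨g.trans g', ?_, ?_⟩
      · rw [Finset.piecewise_insert, ← h3, ← h1, image_image]
        rfl
      · rw [Finset.piecewise_insert, ← h4, ← h2, image_image]
        rfl
  obtain ⟨g, h1, h2⟩ := key Finset.univ
  rw [Finset.piecewise_univ] at h1 h2
  exact ⟨g, h1, h2⟩

end

end Pool.Agent.Y93.Spur
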