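import Mathlib
import Pool.Agent.Y93.Spur2
import Pool.Agent.Helper337.PolygonProofC

/-!
The spurs of the `14`-gon of `Helper337` can be rescaled.
-/

set_option autoImplicit false

namespace Pool.Agent.Y93.Spur

open Set Pool.Agent.Helper337.PolygonPattern

noncomputable section

def uu (x : ZMod 14 → Pl) (i : ZMod 14) : Pl := x (i - 1) - x i
def ww (x : ZMod 14 → Pl) (i : ZMod 14) : Pl := x (i + 1) - x i

theorem det_ne (i : ZMod 14) : det (uu xx i) (ww xx i) ≠ 0 := by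
  have h : ∀ i, orr (XZ (i - 1)) (XZ i) (XZ (i + 1)) ≠ 0 := by decide +kernel
  have h1 : det (uu xx i) (ww xx i) = -orR (toR (XZ (i - 1))) (toR (XZ i)) (toR (XZ (i + 1))) := by
    unfold det uu ww orR xx
    simp only [Prod.fst_sub, Prod.snd_sub]
    ring
  rw [h1, orR_toR]
  have := h i
  simpa using this

theorem self_mem (x : ZMod 14 → Pl) (i : ZMod 14) : x i ∈ edge x i := left_mem_segment ℝ _ _

theorem self_mem' (x : ZMod 14 → Pl) (i : ZMod 14) : x i ∈ edge x (i - 1) := by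
  unfold edge
  rw [sub_add_cancel]
  exact right_mem_segment ℝ _ _

theorem not_mem_edge {x : ZMod 14 → Pl} (ho : Ordinary x) {i k : ZMod 14} (h1 : k ≠ i)
    (h2 : k ≠ i - 1) : x i ∉ edge x k := by
  intro h
  have h3 : i ≠ i - 1 := by
    intro h
    have : (1 : ZMod 14) = 0 := by
      have h4 : i - (i - 1) = 0 := by rw [← h, sub_self]
      rwa [sub_sub_cancel] at h4
    exact absurd this (by decide)
  exact ho (x i) i (i - 1) k h3 h2.symm h1.symm ⟨self_mem x i, self_mem' x i, h⟩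

theorem exists_R {x : ZMod 14 → Pl} (ho : Ordinary x) : ∃ R : ℝ, 0 < R ∧
    ∀ i k : ZMod 14, k ≠ i → k ≠ i - 1 → ∀ p ∈ edge x k, R < dist p (x i) := by
  have h1 : ∀ q : ZMod 14 × ZMod 14, ∃ r : ℝ, 0 < r ∧
      (q.2 ≠ q.1 → q.2 ≠ q.1 - 1 → ∀ p ∈ edge x q.2, r ≤ dist p (x q.1)) := by
    rintro ⟨i, k⟩
    by_cases h : k ≠ i ∧ k ≠ i - 1
    · have hc : IsClosed (edge x k) := by
        unfold edge
        rw [segment_eq_image']
        exact (isCompact_Icc.image (by fun_prop)).isClosed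
      have hm : x i ∈ (edge x k)ᶜ := not_mem_edge ho h.1 h.2
      obtain ⟨r, hr, hb⟩ := Metric.isOpen_iff.1 hc.isOpen_compl (x i) hm
      refine ⟨r, hr, fun _ _ p hp => ?_⟩
      by_contra hcon
      exact hb (Metric.mem_ball.2 (not_le.1 hcon)) hp
    · exact ⟨1, one_pos, fun a b => (h ⟨a, b⟩).elim⟩
  choose r hr hr' using h1
  obtain ⟨q, hq⟩ := Finite.exists_min r
  refine ⟨r q / 2, by have := hr q; positivity, fun i k h1 h2 p hp => ?_⟩
  have h3 := hr' (i, k) h1 h2 p hp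
  have h4 := hq (i, k)
  have h5 := hr q
  linarith

theorem dist_R {x : ZMod 14 → Pl} {R : ℝ}
    (hR : ∀ i k : ZMod 14, k ≠ i → k ≠ i - 1 → ∀ p ∈ edge x k, R < dist p (x i))
    {i j : ZMod 14} (hij : i ≠ j) : R < dist (x j) (x i) := by
  by_cases h : j = i - 1
  · refine hR i (j - 1) ?_ ?_ _ (self_mem' x j)
    · subst h
      revert i; decide
    · subst h
      revert i; decide
  · exact hR i j hij.symm h _ (self_mem x j)

theorem exists_rho {x : ZMod 14 → Pl} (ho : Ordinary x)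
    (hd : ∀ i, det (uu x i) (ww x i) ≠ 0) : ∃ ρ : ℝ, 0 < ρ ∧
    (∀ i, Disjoint (⋃ k, edge x k) (T (x i) (uu x i) (ww x i) ρ)) ∧
    ∀ i j, i ≠ j → Disjoint (T (x i) (uu x i) (ww x i) ρ) (T (x j) (uu x j) (ww x j) ρ) := by
  obtain ⟨R, hR0, hR⟩ := exists_R ho
  set S := 1 + ∑ i, (‖uu x i‖ + ‖ww x i‖) with hS
  have hS0 : 0 < S := by positivity
  have hSi : ∀ i, ‖uu x i‖ + ‖ww x i‖ ≤ S := by
    intro i
    have h1 : ‖uu x i‖ + ‖ww x i‖ ≤ ∑ i, (‖uu x i‖ + ‖ww x i‖) :=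
      Finset.single_le_sum (f := fun i => ‖uu x i‖ + ‖ww x i‖)
        (fun i _ => by positivity) (Finset.mem_univ i)
    linarith
  have hT : ∀ i, ∀ p ∈ T (x i) (uu x i) (ww x i) (R / (2 * S)), dist p (x i) ≤ R / 2 := by
    intro i p hp
    refine (T_ball (hd i) hp).trans ?_
    calc R / (2 * S) * (‖uu x i‖ + ‖ww x i‖) ≤ R / (2 * S) * S := by
          gcongr
          exact hSi i
      _ = R / 2 := by field_simp
  refine ⟨R / (2 * S), by positivity, ?_, ?_⟩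
  · intro i
    rw [Set.disjoint_left]
    intro p hp hpT
    obtain ⟨k, hk⟩ := mem_iUnion.1 hp
    have hdist := hT i p hpT
    by_cases h1 : k = i
    · subst h1
      unfold edge at hk
      rw [segment_eq_image'] at hk
      obtain ⟨t, ⟨h0, -⟩, rfl⟩ := hk
      exact not_T_right (hd k) h0 hpT
    · by_cases h2 : k = i - 1
      · subst h2
        unfold edge at hk
        rw [sub_add_cancel, segment_symm, segment_eq_image'] at hk
        obtain ⟨t, ⟨h0, -⟩, rfl⟩ := hk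
        exact not_T_left (hd i) h0 hpT
      · have := hR i k h1 h2 p hk
        linarith
  · intro i j hij
    rw [Set.disjoint_left]
    intro p hp hp'
    have h1 := hT i p hp
    have h2 := hT j p hp'
    have h3 := dist_R hR hij
    have h4 := dist_triangle (x j) p (x i)
    rw [dist_comm (x j) p] at h4
    linarith

/-- the crossing points -/
def crs (x : ZMod 14 → Pl) : Set Pl := {p | ∃ i j, i ≠ j ∧ p ∈ edge x i ∧ p ∈ edge x j}

/-- the map with short edges of size `ε` -/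
def map14 (x : ZMod 14 → Pl) (ε : ℝ) : Set Pl :=
  (⋃ i, edge x i) ∪ ⋃ i, segment ℝ (x i) (x i + ε • ((2:ℝ) • x i - x (i - 1) - x (i + 1)))

/-- its nodes -/
def nodes14 (x : ZMod 14 → Pl) (ε : ℝ) : Set Pl :=
  range x ∪ crs x ∪ range fun i => x i + ε • ((2:ℝ) • x i - x (i - 1) - x (i + 1))

theorem pend_eq (x : ZMod 14 → Pl) (ε : ℝ) (i : ZMod 14) :
    x i + ε • ((2:ℝ) • x i - x (i - 1) - x (i + 1)) = x i - ε • (uu x i + ww x i) := by
  unfold uu ww
  rw [two_smul]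
  module

theorem rescale14 : ∃ δ : ℝ, 0 < δ ∧ ∀ ε₁ ε₂ : ℝ, 0 < ε₁ → ε₁ < δ → 0 < ε₂ → ε₂ < δ →
    ∃ g : Pl ≃ₜ Pl, g '' map14 xx ε₁ = map14 xx ε₂ ∧ g '' nodes14 xx ε₁ = nodes14 xx ε₂ := by
  obtain ⟨ρ, hρ, hK, hT⟩ := exists_rho ordinaryX det_ne
  refine ⟨ρ, hρ, fun ε₁ ε₂ h1 h1' h2 h2' => ?_⟩
  have hN : range xx ∪ crs xx ⊆ ⋃ i, edge xx i := by
    rintro p (⟨i, rfl⟩ | ⟨i, -, -, h, -⟩)
    · exact mem_iUnion.2 ⟨i, self_mem xx i⟩
    · exact mem_iUnion.2 ⟨i, h⟩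
  obtain ⟨g, h3, h4⟩ := rescale (K := ⋃ i, edge xx i) (N₀ := range xx ∪ crs xx) (v := xx)
    (u := uu xx) (w := ww xx) det_ne hK hN (fun i => mem_iUnion.2 ⟨i, self_mem xx i⟩) hT
    (fun _ => ε₁) (fun _ => ε₂) (fun _ => ⟨h1, h1'⟩) (fun _ => ⟨h2, h2'⟩)
  refine ⟨g, ?_, ?_⟩
  · unfold map14
    simp only [pend_eq]
    exact h3
  · unfold nodes14
    simp only [pend_eq]
    exact h4

theorem tau_pend (ε : ℝ) (i : ZMod 14) :
    tau (xx i + ε • ((2:ℝ) • xx i - xx (i - 1) - xx (i + 1))) =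
      yy (i + 7) + ε • ((2:ℝ) • yy (i + 7) - yy (i + 7 - 1) - yy (i + 7 + 1)) := by
  have h1 : i + 7 - 1 = (i - 1) + 7 := by ring
  have h2 : i + 7 + 1 = (i + 1) + 7 := by ring
  rw [h1, h2, ← tau_xx, ← tau_xx, ← tau_xx]
  simp only [tau_apply]
  apply Prod.ext
  · simp
  · simp; ring

theorem tau_map (ε : ℝ) : tau '' map14 xx ε = map14 yy ε := by
  unfold map14
  rw [image_union, image_iUnion, image_iUnion]
  congr 1
  · simp only [tau_edge]
    exact iUnion_shift (fun i => edge yy i)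
  · rw [← iUnion_shift (fun i => segment ℝ (yy i)
      (yy i + ε • ((2:ℝ) • yy i - yy (i - 1) - yy (i + 1))))]
    refine iUnion_congr fun i => ?_
    rw [tau_segment, tau_xx, tau_pend]

theorem tau_crs : tau '' crs xx = crs yy := by
  ext p
  constructor
  · rintro ⟨q, ⟨i, j, hij, hi, hj⟩, rfl⟩
    refine ⟨i + 7, j + 7, fun h => hij (add_right_cancel h), ?_, ?_⟩
    · rw [← tau_edge]; exact mem_image_of_mem _ hi
    · rw [← tau_edge]; exact mem_image_of_mem _ hj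
  · rintro ⟨i, j, hij, hi, hj⟩
    have e : ∀ i : ZMod 14, i + 7 + 7 = i := by decide
    have hi' : p ∈ tau '' edge xx (i + 7) := by rw [tau_edge, e]; exact hi
    have hj' : p ∈ tau '' edge xx (j + 7) := by rw [tau_edge, e]; exact hj
    obtain ⟨q, hq, rfl⟩ := hi'
    obtain ⟨q', hq', h⟩ := hj'
    have : q' = q := tau.injective h
    subst this
    exact ⟨q', ⟨i + 7, j + 7, fun h => hij (add_right_cancel h), hq, hq'⟩, rfl⟩

theorem tau_nodes (ε : ℝ) : tau '' nodes14 xx ε = nodes14 yy ε := by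
  unfold nodes14
  rw [image_union, image_union, tau_crs]
  congr 1
  · congr 1
    rw [← range_comp]
    have : (tau ∘ xx) = yy ∘ (Equiv.addRight (7 : ZMod 14)) := by
      funext i
      exact tau_xx i
    rw [this, (Equiv.surjective _).range_comp]
  · rw [← range_comp]
    have : (tau ∘ fun i => xx i + ε • ((2:ℝ) • xx i - xx (i - 1) - xx (i + 1))) =
        (fun i => yy i + ε • ((2:ℝ) • yy i - yy (i - 1) - yy (i + 1))) ∘
          (Equiv.addRight (7 : ZMod 14)) := by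
      funext i
      exact tau_pend ε i
    rw [this, (Equiv.surjective _).range_comp]

theorem same14 : ∃ δ : ℝ, 0 < δ ∧ ∀ ε₁ ε₂ : ℝ, 0 < ε₁ → ε₁ < δ → 0 < ε₂ → ε₂ < δ →
    ∃ g : Pl ≃ₜ Pl, g '' map14 xx ε₁ = map14 yy ε₂ ∧ g '' nodes14 xx ε₁ = nodes14 yy ε₂ := by
  obtain ⟨δ, hδ, h⟩ := rescale14
  refine ⟨δ, hδ, fun ε₁ ε₂ h1 h1' h2 h2' => ?_⟩
  obtain ⟨g, h3, h4⟩ := h ε₁ ε₂ h1 h1' h2 h2'
  refine ⟨g.trans tau, ?_, ?_⟩
  · rw [← tau_map, ← h3, image_image]; rfl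
  · rw [← tau_nodes, ← h4, image_image]; rfl

end

end Pool.Agent.Y93.Spur
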